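import Mathlib
import Pool.Agent.V11215.Corr

/-!
MP_029391_gt, Q1 (negated form): three four-point metric spaces without a simultaneously optimal
triple correspondence.
-/

set_option autoImplicit false

namespace Pool.Agent.Results.MP_029391_gt.FourPointSpaces

open Pool.Agent.V11215.Corr

/-- There are nonempty compact metric spaces `X 0`, `X 1`, `X 2` such that for every
`R ⊆ X 0 × X 1 × X 2` some projection `e_ij(R)`, `i ≠ j`, is not an optimal correspondence. -/
theorem result : ∃ (X : Fin 3 → Type) (_ : ∀ i, MetricSpace (X i)) (_ : ∀ i, CompactSpace (X i))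
    (_ : ∀ i, Nonempty (X i)), ∀ R : Set (∀ k, X k), ∃ i j, i ≠ j ∧ ¬ IsOptimal (proj i j R) :=
  ⟨Q, fun _ => inferInstance, fun _ => inferInstance, fun _ => inferInstance, no_optimal⟩

end Pool.Agent.Results.MP_029391_gt.FourPointSpaces
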